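import Pool.Agent.Helper98.EQ.Goals
import Mathlib

/-!
# Project EQ (MP_5b9a11_al): packet PAR, the parity
-/

set_option autoImplicit false

namespace Pool.Agent.Helper4.EQ.PAR

open Pool.Agent.Helper98.EQ

variable {p : ℕ} [hp : Fact p.Prime] {D : Type} [Group D] [Finite D]

theorem zp (C : Subgroup D) (hC : Nat.card C = p) (x : D) (hx : x ∈ C) (h1 : x ≠ 1) :
    Subgroup.zpowers x = C := by
  have hle : Subgroup.zpowers x ≤ C := by
    rw [Subgroup.zpowers_le]; exact hx
  have hd : Nat.card (Subgroup.zpowers x) ∣ p := hC ▸ Subgroup.card_dvd_of_le hle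
  have h2 := (Nat.dvd_prime hp.out).1 hd
  refine Subgroup.eq_of_le_of_card_ge hle ?_
  rcases h2 with h2 | h2
  · exfalso
    apply h1
    rw [Nat.card_zpowers, orderOf_eq_one_iff] at h2
    exact h2
  · rw [h2, hC]

theorem same (C C' : Subgroup D) (hC : Nat.card C = p) (hC' : Nat.card C' = p) (x : D) (hx : x ∈ C)
    (hx' : x ∈ C') (h1 : x ≠ 1) : C = C' := by
  rw [← zp C hC x hx h1, ← zp C' hC' x hx' h1]

/-- `d` fixes `a` -/
theorem fix_iff (d : D) (a : AS p D) : d • a = a ↔ d • a.2 = a.2 := by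
  rw [AS.smul_def]
  constructor
  · intro h
    obtain ⟨C, c⟩ := a
    have := (Sigma.mk.inj h).2
    exact eq_of_heq this
  · intro h
    rw [h]
    rfl

theorem fix_mem (d : D) (a : AS p D) (h : d • a = a) (x : D) (hx : (x : D ⧸ a.1.1) = a.2) :
    x⁻¹ * d * x ∈ a.1.1 := by
  rw [fix_iff, ← hx] at h
  have h2 : ((d * x : D) : D ⧸ a.1.1) = (x : D ⧸ a.1.1) := h
  rw [mul_assoc]
  exact QuotientGroup.eq.1 h2.symm

/-- the point `(C, xC)` -/
def pt (C : {C : Subgroup D // Nat.card C = p}) (x : D) : AS p D := ⟨C, (x : D ⧸ C.1)⟩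

theorem fix_of_mem (d : D) (C : {C : Subgroup D // Nat.card C = p}) (x : D)
    (h : x⁻¹ * d * x ∈ C.1) : d • pt C x = pt C x := by
  rw [fix_iff]
  show ((d * x : D) : D ⧸ C.1) = (x : D ⧸ C.1)
  rw [mul_assoc] at h
  exact (QuotientGroup.eq.2 h).symm

theorem cc_fix (d : D) (a : AS p D) (h : d • a = a) : cc d a = 0 ↔ d = 1 := by
  have h2 : d⁻¹ • a.2 = a.2 := by
    rw [fix_iff] at h
    rw [inv_smul_eq_iff, h]
  unfold cc
  rw [toAdd_eq_zero, MulEquiv.map_eq_one_iff, Subtype.ext_iff]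
  show (Quotient.out a.2)⁻¹ * d * Quotient.out (d⁻¹ • a.2) = 1 ↔ d = 1
  rw [h2]
  constructor
  · intro h3
    have : d = Quotient.out a.2 * ((Quotient.out a.2)⁻¹ * d * Quotient.out a.2) *
      (Quotient.out a.2)⁻¹ := by group
    rw [this, h3]
    group
  · intro h3
    rw [h3]
    group

/-! ### the fixed points of `z` -/

/-- the pairs of a fixed point and an element of its group -/
noncomputable def F (z : D) (q : Σ a : {a : AS p D // z • a = a}, a.1.1.1) : D :=
  Quotient.out q.1.1.2 * (q.2 : D)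

theorem F_mk (z : D) (q : Σ a : {a : AS p D // z • a = a}, a.1.1.1) :
    ((F z q : D) : D ⧸ q.1.1.1.1) = q.1.1.2 := by
  have h : ((Quotient.out q.1.1.2 : D) : D ⧸ q.1.1.1.1) = q.1.1.2 := QuotientGroup.out_eq' _
  rw [← h]
  refine (QuotientGroup.eq.2 ?_).symm
  unfold F
  rw [inv_mul_cancel_left]
  exact q.2.2

theorem F_bij (z : D) (hz : orderOf z = p) : Function.Bijective (F (p := p) z) := by
  constructor
  · rintro q r h
    have h1 := F_mk z q
    have h2 := F_mk z r
    rw [← h] at h2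
    have m1 := fix_mem z q.1.1 q.1.2 (F z q) h1
    have m2 := fix_mem z r.1.1 r.1.2 (F z q) h2
    have hne : (F z q)⁻¹ * z * F z q ≠ 1 := by
      intro h3
      have : z = F z q * ((F z q)⁻¹ * z * F z q) * (F z q)⁻¹ := by group
      rw [h3] at this
      have h4 : z = 1 := by rw [this]; group
      rw [h4, orderOf_one] at hz
      exact hp.out.one_lt.ne hz
    have hC := same q.1.1.1.1 r.1.1.1.1 q.1.1.1.2 r.1.1.1.2 _ m1 m2 hne
    obtain ⟨⟨⟨⟨C, hC1⟩, c⟩, hc⟩, k⟩ := q
    obtain ⟨⟨⟨⟨C', hC1'⟩, c'⟩, hc'⟩, k'⟩ := r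
    dsimp only at hC h1 h2
    subst hC
    have hcc : c = c' := h1.symm.trans h2
    subst hcc
    have hk : k = k' := by
      unfold F at h
      dsimp only at h
      exact Subtype.ext (mul_left_cancel h)
    subst hk
    rfl
  · intro x
    have ho : orderOf (x⁻¹ * z * x) = p := by
      rw [← hz]
      have : x⁻¹ * z * x = MulAut.conj x⁻¹ z := by
        rw [MulAut.conj_apply, inv_inv]
      rw [this]
      exact orderOf_injective (MulAut.conj x⁻¹).toMonoidHom (MulAut.conj x⁻¹).injective z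
    have hC : Nat.card (Subgroup.zpowers (x⁻¹ * z * x)) = p := by
      rw [Nat.card_zpowers, ho]
    have hm : x⁻¹ * z * x ∈ Subgroup.zpowers (x⁻¹ * z * x) := Subgroup.mem_zpowers _
    have hf := fix_of_mem z ⟨Subgroup.zpowers (x⁻¹ * z * x), hC⟩ x hm
    have hk : (Quotient.out (pt ⟨Subgroup.zpowers (x⁻¹ * z * x), hC⟩ x).2)⁻¹ * x ∈
        Subgroup.zpowers (x⁻¹ * z * x) := by
      refine QuotientGroup.eq.1 ?_
      exact QuotientGroup.out_eq' _
    refine ⟨⟨⟨pt ⟨Subgroup.zpowers (x⁻¹ * z * x), hC⟩ x, hf⟩, ⟨_, hk⟩⟩, ?_⟩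
    unfold F
    exact mul_inv_cancel_left _ _

theorem card_fix (z : D) (hz : orderOf z = p) :
    Nat.card {a : AS p D // z • a = a} * p = Nat.card D := by
  classical
  have h1 := Nat.card_eq_of_bijective _ (F_bij (p := p) z hz)
  rw [← h1, Nat.card_sigma, Finset.sum_congr rfl fun a _ => a.1.1.2, Finset.sum_const,
    Finset.card_univ, smul_eq_mul, Nat.card_eq_fintype_card]

/-! ### the orbits of `u` -/

theorem coc_pow (hc : Coc (A := AS p D) (D := D) cc) (u : D) (b : AS p D) (n : ℕ) :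
    cc (u ^ n) (u ^ n • b) = ∑ i ∈ Finset.range n, cc u (u ^ (i + 1) • b) := by
  induction n with
  | zero =>
    rw [Finset.range_zero, Finset.sum_empty, pow_zero, one_smul]
    exact (cc_fix 1 b (one_smul D b)).2 rfl
  | succ n ih =>
    rw [Finset.sum_range_succ, ← ih, pow_succ' u n, hc]
    have h : u⁻¹ • (u * u ^ n) • b = u ^ n • b := by rw [mul_smul, inv_smul_smul]
    rw [h, add_comm]

theorem per_pos (u : D) (a : AS p D) : 0 < Function.minimalPeriod (u • ·) a := by
  have h : u ^ orderOf u • a = a := by rw [pow_orderOf_eq_one, one_smul]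
  rw [MulAction.pow_smul_eq_iff_minimalPeriod_dvd] at h
  exact Nat.pos_of_dvd_of_pos h (orderOf_pos u)

theorem per_fix (u : D) (a : AS p D) : u ^ Function.minimalPeriod (u • ·) a • a = a := by
  rw [MulAction.pow_smul_eq_iff_minimalPeriod_dvd]

theorem zpow_apply (u : D) (i : ℤ) (a : AS p D) :
    ((MulAction.toPerm u : Equiv.Perm (AS p D)) ^ i) a = u ^ i • a := by
  have h : (MulAction.toPerm u : Equiv.Perm (AS p D)) = MulAction.toPermHom D (AS p D) u := rfl
  rw [h, ← map_zpow]
  rfl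

theorem same_iff (u : D) (x a : AS p D) :
    Quotient.mk (Equiv.Perm.SameCycle.setoid (MulAction.toPerm u : Equiv.Perm (AS p D))) x =
      Quotient.mk (Equiv.Perm.SameCycle.setoid (MulAction.toPerm u)) a ↔ ∃ i : ℤ, x = u ^ i • a := by
  rw [Quotient.eq]
  show (∃ i : ℤ, ((MulAction.toPerm u : Equiv.Perm (AS p D)) ^ i) x = a) ↔ _
  constructor
  · rintro ⟨i, hi⟩
    refine ⟨-i, ?_⟩
    rw [← hi, zpow_apply, smul_smul, ← zpow_add, neg_add_cancel, zpow_zero, one_smul]
  · rintro ⟨i, hi⟩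
    refine ⟨-i, ?_⟩
    rw [hi, zpow_apply, smul_smul, ← zpow_add, neg_add_cancel, zpow_zero, one_smul]

theorem inj_per (u : D) (a : AS p D) :
    Set.InjOn (fun i : ℕ => u ^ (i + 1) • a)
      (Finset.range (Function.minimalPeriod (u • ·) a) : Set ℕ) := by
  intro i hi j hj h
  dsimp only at h
  rw [Finset.coe_range, Set.mem_Iio] at hi hj
  have h1 : u ^ ((i : ℤ) - j) • a = a := by
    have h2 : u ^ (-((j : ℤ) + 1)) • u ^ (i + 1) • a = u ^ (-((j : ℤ) + 1)) • u ^ (j + 1) • a := by
      rw [h]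
    rw [← zpow_natCast, ← zpow_natCast, smul_smul, smul_smul, ← zpow_add, ← zpow_add] at h2
    have e1 : -((j : ℤ) + 1) + ((j + 1 : ℕ) : ℤ) = 0 := by push_cast; ring
    have e2 : -((j : ℤ) + 1) + ((i + 1 : ℕ) : ℤ) = (i : ℤ) - j := by push_cast; ring
    rw [e1, e2, zpow_zero, one_smul] at h2
    exact h2
  rw [MulAction.zpow_smul_eq_iff_minimalPeriod_dvd] at h1
  have h3 := Int.eq_zero_of_abs_lt_dvd h1 (by rw [abs_lt]; omega)
  omega


open Classical in
/-- the orbit of `a` -/
noncomputable def orb (u : D) (a : AS p D) : Finset (AS p D) :=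
  Finset.univ.filter fun x =>
    Quotient.mk (Equiv.Perm.SameCycle.setoid (MulAction.toPerm u : Equiv.Perm (AS p D))) x =
      Quotient.mk (Equiv.Perm.SameCycle.setoid (MulAction.toPerm u)) a

theorem orb_eq (u : D) (a : AS p D) : orb u a =
    (Finset.range (Function.minimalPeriod (u • ·) a)).image (fun i : ℕ => u ^ (i + 1) • a) := by
  classical
  ext x
  unfold orb
  rw [Finset.mem_filter, same_iff, Finset.mem_image]
  constructor
  · rintro ⟨-, i, rfl⟩
    have hm := per_pos u a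
    refine ⟨((i - 1) % (Function.minimalPeriod (u • ·) a : ℤ)).toNat, ?_, ?_⟩
    · rw [Finset.mem_range]
      have h1 := Int.emod_lt_of_pos (i - 1) (by exact_mod_cast hm :
        (0 : ℤ) < (Function.minimalPeriod (u • ·) a : ℤ))
      omega
    · have h2 := Int.emod_nonneg (i - 1) (by exact_mod_cast hm.ne' :
        (Function.minimalPeriod (u • ·) a : ℤ) ≠ 0)
      rw [pow_succ', mul_smul, ← zpow_natCast, Int.toNat_of_nonneg h2,
        MulAction.zpow_smul_mod_minimalPeriod, smul_smul, ← zpow_one_add]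
      congr 2
      ring
  · rintro ⟨i, -, rfl⟩
    refine ⟨Finset.mem_univ _, ((i + 1 : ℕ) : ℤ), ?_⟩
    rw [zpow_natCast]

theorem orb_card (u : D) (a : AS p D) : (orb u a).card = Function.minimalPeriod (u • ·) a := by
  rw [orb_eq, Finset.card_image_of_injOn (inj_per u a), Finset.card_range]

theorem orb_sum (hc : Coc (A := AS p D) (D := D) cc) (u : D) (a : AS p D) :
    ∑ x ∈ orb u a, cc u x = cc (u ^ Function.minimalPeriod (u • ·) a) a := by
  rw [orb_eq, Finset.sum_image (inj_per u a), ← coc_pow hc, per_fix]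

theorem orb_ne (hc : Coc (A := AS p D) (D := D) cc) (u : D) (a : AS p D) :
    ∑ x ∈ orb u a, cc u x ≠ 0 ↔ u ^ Function.minimalPeriod (u • ·) a ≠ 1 := by
  rw [orb_sum hc, Ne, cc_fix _ _ (per_fix u a)]

theorem per_lt (u : D) (k : ℕ) (hk : orderOf u = p ^ (k + 1)) (a : AS p D) :
    u ^ Function.minimalPeriod (u • ·) a ≠ 1 ↔ u ^ p ^ k • a = a := by
  have h0 : Function.minimalPeriod (u • ·) a ∣ p ^ (k + 1) := by
    rw [← MulAction.pow_smul_eq_iff_minimalPeriod_dvd, ← hk, pow_orderOf_eq_one, one_smul]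
  rw [MulAction.pow_smul_eq_iff_minimalPeriod_dvd, Ne, ← orderOf_dvd_iff_pow_eq_one, hk]
  obtain ⟨j, hj, h1⟩ := (Nat.dvd_prime_pow hp.out).1 h0
  rw [h1, Nat.pow_dvd_pow_iff_le_right hp.out.one_lt, Nat.pow_dvd_pow_iff_le_right hp.out.one_lt]
  omega

theorem per_eq (u : D) (k : ℕ) (hk : orderOf u = p ^ (k + 1)) (a : AS p D)
    (h : u ^ p ^ k • a = a) : Function.minimalPeriod (u • ·) a = p ^ k := by
  have h0 := h
  rw [MulAction.pow_smul_eq_iff_minimalPeriod_dvd] at h0
  refine Nat.dvd_antisymm h0 ?_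
  have h1 := fix_mem _ _ (per_fix u a) (Quotient.out a.2) (QuotientGroup.out_eq' _)
  have h2 : ((Quotient.out a.2)⁻¹ * u ^ Function.minimalPeriod (u • ·) a * Quotient.out a.2) ^ p = 1 := by
    have h3 : (⟨_, h1⟩ : a.1.1) ^ p = 1 := by
      have h7 := pow_card_eq_one' (x := (⟨_, h1⟩ : a.1.1))
      have h8 : Nat.card a.1.1 = p := a.1.2
      rw [h8] at h7
      exact h7
    exact congrArg Subtype.val h3
  have h4 : (u ^ Function.minimalPeriod (u • ·) a) ^ p = 1 := by
    have h5 : ∀ x y : D, (x⁻¹ * y * x) ^ p = x⁻¹ * y ^ p * x := by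
      intro x y
      have := (conj_pow (i := p) (a := x⁻¹) (b := y))
      rwa [inv_inv] at this
    rw [h5] at h2
    have h6 : (u ^ Function.minimalPeriod (u • ·) a) ^ p = Quotient.out a.2 *
      ((Quotient.out a.2)⁻¹ * (u ^ Function.minimalPeriod (u • ·) a) ^ p * Quotient.out a.2) *
      (Quotient.out a.2)⁻¹ := by group
    rw [h6, h2]
    group
  rw [← pow_mul, ← orderOf_dvd_iff_pow_eq_one, hk, pow_succ] at h4
  exact Nat.dvd_of_mul_dvd_mul_right hp.out.pos h4

theorem count (hc : Coc (A := AS p D) (D := D) cc) (u : D) (k : ℕ)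
    (hk : orderOf u = p ^ (k + 1)) :
    nz (MulAction.toPerm u : Equiv.Perm (AS p D)) (cc u) * p ^ k =
      Nat.card {a : AS p D // u ^ p ^ k • a = a} := by
  classical
  have hnz : nz (MulAction.toPerm u : Equiv.Perm (AS p D)) (cc u) =
      (Finset.univ.filter fun o : Quotient (Equiv.Perm.SameCycle.setoid
        (MulAction.toPerm u : Equiv.Perm (AS p D))) =>
        ∑ a ∈ Finset.univ.filter (fun a => (Quotient.mk (Equiv.Perm.SameCycle.setoid
          (MulAction.toPerm u : Equiv.Perm (AS p D))) a) = o), cc u a ≠ 0).card := by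
    unfold nz
    rw [Nat.card_eq_fintype_card, Fintype.card_subtype]
  have hfi : ∀ a : AS p D, (∑ x ∈ Finset.univ.filter (fun x => (Quotient.mk
      (Equiv.Perm.SameCycle.setoid (MulAction.toPerm u : Equiv.Perm (AS p D))) x) =
      Quotient.mk (Equiv.Perm.SameCycle.setoid (MulAction.toPerm u)) a), cc u x ≠ 0) ↔
      u ^ p ^ k • a = a := by
    intro a
    rw [← per_lt u k hk a, ← orb_ne hc u a]
    have : (Finset.univ.filter (fun x => (Quotient.mk
      (Equiv.Perm.SameCycle.setoid (MulAction.toPerm u : Equiv.Perm (AS p D))) x) =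
      Quotient.mk (Equiv.Perm.SameCycle.setoid (MulAction.toPerm u)) a)) = orb u a := by
      unfold orb
      ext
      simp only [Finset.mem_filter]
    rw [this]
  rw [hnz, Nat.card_eq_fintype_card, Fintype.card_subtype,
    Finset.card_eq_sum_card_fiberwise (f := fun a => Quotient.mk (Equiv.Perm.SameCycle.setoid
        (MulAction.toPerm u : Equiv.Perm (AS p D))) a) (t := Finset.univ.filter fun o : Quotient
        (Equiv.Perm.SameCycle.setoid (MulAction.toPerm u : Equiv.Perm (AS p D))) =>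
        ∑ a ∈ Finset.univ.filter (fun a => (Quotient.mk (Equiv.Perm.SameCycle.setoid
          (MulAction.toPerm u : Equiv.Perm (AS p D))) a) = o), cc u a ≠ 0)]
  · rw [Finset.sum_congr rfl (g := fun _ => p ^ k), Finset.sum_const, smul_eq_mul]
    intro o ho
    induction o using Quotient.inductionOn with
    | h a =>
      rw [Finset.mem_filter] at ho
      have ha := (hfi a).1 ho.2
      have he := per_eq u k hk a ha
      rw [← orb_card] at he
      refine Eq.trans ?_ he
      congr 1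
      unfold orb
      ext x
      rw [Finset.mem_filter, Finset.mem_filter, Finset.mem_filter]
      constructor
      · rintro ⟨-, h⟩
        exact ⟨Finset.mem_univ _, h⟩
      · rintro ⟨-, h⟩
        refine ⟨⟨Finset.mem_univ _, ?_⟩, h⟩
        rw [← hfi x]
        have h' : Quotient.mk (Equiv.Perm.SameCycle.setoid
          (MulAction.toPerm u : Equiv.Perm (AS p D))) x = Quotient.mk _ a := h
        rw [h']
        exact ho.2
  · intro a ha
    rw [Finset.coe_filter, Set.mem_ofPred_eq] at ha ⊢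
    exact ⟨Finset.mem_univ _, (hfi a).2 ha.2⟩

/-- packet PAR -/
theorem t (hS : S_SET) : S_PAR := by
  intro p hp D _ _ hp2 hD u hu
  have hc := (hS p D).1
  obtain ⟨k, hk⟩ := (IsPGroup.iff_orderOf.1 hD) u
  obtain ⟨k, rfl⟩ : ∃ j, k = j + 1 := by
    cases k with
    | zero =>
      exfalso
      apply hu
      rw [pow_zero, orderOf_eq_one_iff] at hk
      exact hk
    | succ j => exact ⟨j, rfl⟩
  have hz : orderOf (u ^ p ^ k) = p := by
    rw [orderOf_pow_of_dvd (pow_ne_zero _ hp.out.ne_zero) (by rw [hk]; exact ⟨p, pow_succ p k⟩), hk,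
      pow_succ]
    exact Nat.mul_div_cancel_left _ (pow_pos hp.out.pos k)
  have h1 := card_fix (p := p) (u ^ p ^ k) hz
  rw [← count hc u k hk, mul_assoc] at h1
  have h2 : Odd (Nat.card D) := by
    obtain ⟨n, hn⟩ := IsPGroup.iff_card.1 hD
    rw [hn]
    exact (hp.out.odd_of_ne_two hp2).pow
  exact Odd.of_dvd_nat h2 ⟨_, h1.symm⟩

end Pool.Agent.Helper4.EQ.PAR
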